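import Pool.Agent.TH655.ML.Tree

/-!
# Monotone real algorithms with few comparisons: the lower bound
-/

set_option autoImplicit false

open Finset

namespace Pool.Agent.TH655.ML

open Pool.Agent.H560R2

/-- all entries are `-1`, `0` or `1` -/
def Small {ι : Type} (b : ι → ℝ) : Prop := ∀ i, b i = -1 ∨ b i = 0 ∨ b i = 1

theorem rhs_le {M n : ℕ} {x x' : Fin M × (Fin n × Fin n) → Bool} (h : x ≤ x') :
    rhs x ≤ rhs x' := by
  intro i
  rcases i with q | q | q | q
  · exact le_rfl
  · show bit x q - 1 ≤ bit x' q - 1
    have := bit_mono h q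
    linarith
  · exact le_rfl
  · exact le_rfl

/-- the bits of a family of sets -/
noncomputable def enc {M n : ℕ} (y : Fin M → Set (Fin n × Fin n)) :
    (Fin M × (Fin n × Fin n)) → Bool :=
  open Classical in fun p => decide (p.2 ∈ y p.1)

theorem enc_eq {M n : ℕ} (y : Fin M → Set (Fin n × Fin n)) (J : Fin M) :
    {e : Fin n × Fin n | enc y (J, e) = true} = y J := by
  ext e
  simp [enc]

theorem enc_le {M n : ℕ} {y y' : Fin M → Set (Fin n × Fin n)} (h : ∀ j, y j ⊆ y' j) :
    enc y ≤ enc y' := by
  classical
  intro p
  rw [Bool.le_iff_imp]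
  unfold enc
  intro hp
  exact decide_eq_true (h p.1 (of_decide_eq_true hp))

theorem low {ι : Type} (d lam r n M : ℕ) (hd : 1 ≤ d) (hn : n < 2 ^ lam)
    (hbig : 2 ^ 59 * (lam + 1) ^ 8 * d ^ 8 ≤ n) (hM : 2 ^ r ≤ M) (T : Tree ι) (hT : T.Mono)
    (e : ι → Rw M n) (he : Function.Surjective e)
    (hans : ∀ b : ι → ℝ, Small b → (ans b T 0 = true ↔
      ∃ y : Fin M × (Fin n × Fin n) → ℝ, ∀ i, b i ≤ ∑ j, Mtx M n (e i) j * y j))
    (hr : ∀ b : ι → ℝ, Small b → (path b T 0).length ≤ r) :
    ∃ b : ι → ℝ, Small b ∧ 2 ^ d ≤ steps b T 0 := by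
  classical
  by_contra hcon
  push Not at hcon
  have hbf0 : BF n ∅ := BF_perm 1 ∅ (fun e he => absurd he (Set.notMem_empty e))
  set inp : (Fin M → Set (Fin n × Fin n)) → ι → ℝ := fun y i => rhs (enc y) (e i) with hinp
  have hsmall : ∀ y, Small (inp y) := fun y i => rhs_values (enc y) (e i)
  have hfe : ∀ y, ans (inp y) T 0 = true ↔ ∀ J, BF n (y J) := by
    intro y
    rw [hans _ (hsmall y)]
    have h1 := feas_iff (enc y)
    simp only [enc_eq] at h1
    rw [← h1]
    constructor
    · rintro ⟨z, hz⟩
      refine ⟨z, fun i => ?_⟩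
      obtain ⟨k, rfl⟩ := he i
      exact hz k
    · rintro ⟨z, hz⟩
      exact ⟨z, fun i => hz (e i)⟩
  have hmono : ∀ y y', (∀ j, y j ⊆ y' j) → inp y ≤ inp y' :=
    fun y y' h i => rhs_le (enc_le h) (e i)
  obtain ⟨Y, k1, k2, k3⟩ := chain_core (κ := Fin M) (m := M) (fun X => BF n X) ∅ hbf0 id
    (fun _ _ h => h) (fun y => path (inp y) T 0) (by
      intro y J hy hyJ
      by_contra hcon2
      push Not at hcon2
      have hup : Function.update y J ∅ = y := by
        rw [← hyJ]; exact Function.update_eq_self J y
      set B : Set (Set (Fin n × Fin n) → ℝ) :=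
        {h | ∃ S : Finset (Fin n × Fin n), S.card ≤ 1 ∧ LeafOnR S h} with hB
      have hconst : ∀ c : ℝ, (fun _ => c) ∈ B := fun c => ⟨∅, by simp, fun x x' _ => le_rfl⟩
      obtain ⟨L, G, hL, hG, hlen, hGX⟩ := program (B := B) (∅ : Set (Fin n × Fin n))
        (fun X => inp (Function.update y J X)) (by
          intro i
          simp only [hinp]
          rcases e i with q | q | q | q
          · exact hconst 0
          · refine ⟨{q.2}, by simp, fun x x' h => ?_⟩
            show bit (enc (Function.update y J x)) q - 1 ≤ bit (enc (Function.update y J x')) q - 1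
            have key : bit (enc (Function.update y J x)) q ≤
                bit (enc (Function.update y J x')) q := by
              unfold bit
              by_cases h1 : enc (Function.update y J x) q = true
              · have h2 : enc (Function.update y J x') q = true := by
                  simp only [enc, decide_eq_true_eq] at h1 ⊢
                  by_cases hp : q.1 = J
                  · rw [hp, Function.update_self] at h1 ⊢
                    exact h q.2 (by simp) h1
                  · rw [Function.update_of_ne hp] at h1 ⊢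
                    exact h1
                rw [if_pos h1, if_pos h2]
              · rw [if_neg h1]
                split_ifs <;> norm_num
            linarith
          · exact hconst 1
          · exact hconst (-1)) (by
          intro X
          apply hmono
          intro j
          by_cases hj : j = J
          · subst hj
            rw [Function.update_self, Function.update_self]
            exact Set.empty_subset _
          · rw [Function.update_of_ne hj, Function.update_of_ne hj]) T hT [] (fun _ => 0)
        (fun _ => 0) RProg.nil (fun k => Or.inl (hconst 0)) (fun X => le_rfl)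
        (Or.inl (hconst 0))
      simp only [hup] at hlen hGX
      have hiff : ∀ X, (1 : ℝ) ≤ G X ↔ ¬ BF n X := by
        intro X
        rw [hGX X]
        have h10 : ¬ (1 : ℝ) ≤ 0 := by norm_num
        simp only [h10, false_or]
        constructor
        · intro h hX
          exact h (hcon2 X hX)
        · intro hX h
          have h1 := ans_eq T h
          have h2 : ans (inp y) T 0 = true := (hfe y).2 hy
          rw [h2, hfe] at h1
          have := h1 J
          rw [Function.update_self] at this
          exact hX this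
      have := match_lower_dual d lam hd hn hbig B (fun b hb => hb) hL G hG 1
        (fun σ => by
          rw [hiff]
          exact not_not.mpr (BF_perm σ _ (fun e he => he)))
        (fun W hW => by
          rw [hiff]
          exact BF_cover W hW)
      have h3 := hcon (inp y) (hsmall y)
      simp only [List.length_nil, zero_add] at hlen
      have h4 : L.length ≤ steps (inp y) T 0 := hlen
      omega)
  have hstep : ∀ i ≤ M, i ≤ rank r (path (inp (Y i)) T 0) := by
    intro i
    induction i with
    | zero => intro _; exact Nat.zero_le _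
    | succ i ih =>
      intro hi
      have h3 := ih (by omega)
      obtain ⟨J, X, hJ, hX⟩ := k1 i (by omega)
      have h4 : inp (Y i) ≤ inp (Y (i + 1)) := by
        rw [hX]
        apply hmono
        intro j
        by_cases hj : j = J
        · subst hj
          rw [hJ]
          exact Set.empty_subset _
        · rw [Function.update_of_ne hj]
      rcases rank_mono h4 T hT r (le_refl (0 : ℕ → ℝ)) (hr _ (hsmall _)) (hr _ (hsmall _)) with
        h5 | h5
      · exact absurd h5 (k2 i (by omega))
      · omega
  have h6 := hstep M le_rfl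
  have h7 := rank_lt r (path (inp (Y M)) T 0)
  omega

open Matrix in
/-- **Monotone real algorithms for linear feasibility with few comparisons.** -/
theorem main (d r : ℕ) (hd : 1 ≤ d) :
    ∃ (m N : ℕ) (A : Matrix (Fin m) (Fin N) ℝ), N = 2 ^ r * (2 ^ 120 * d ^ 9) ^ 2 ∧ m ≤ 6 * N ∧
      (∀ i j, A i j = -1 ∨ A i j = 0 ∨ A i j = 1) ∧
      ∀ T : Tree (Fin m), T.Mono →
        (∀ b : Fin m → ℝ, Small b → (ans b T 0 = true ↔ ∃ x : Fin N → ℝ, b ≤ A *ᵥ x)) →
        (∀ b : Fin m → ℝ, Small b → (path b T 0).length ≤ r) →
        ∃ b : Fin m → ℝ, Small b ∧ 2 ^ d ≤ steps b T 0 := by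
  classical
  obtain ⟨lam, h1, h2⟩ := exists_size d hd
  set n := 2 ^ 120 * d ^ 9 with hn
  set M := 2 ^ r with hM
  have hn1 : 1 ≤ n := by rw [hn]; exact Nat.one_le_iff_ne_zero.2 (by positivity)
  let e : Fin (Fintype.card (Rw M n)) ≃ Rw M n := (Fintype.equivFin (Rw M n)).symm
  have hc : Fintype.card (Fin M × (Fin n × Fin n)) = M * n ^ 2 := by
    simp only [Fintype.card_prod, Fintype.card_fin]
    ring
  let c : Fin (M * n ^ 2) ≃ (Fin M × (Fin n × Fin n)) :=
    (Fintype.equivFinOfCardEq hc).symm
  refine ⟨Fintype.card (Rw M n), M * n ^ 2, fun i j => Mtx M n (e i) (c j), rfl, ?_,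
    fun i j => Mtx_values M n _ _, ?_⟩
  · rw [card_Rw]
    have : M * n ≤ M * n ^ 2 := Nat.mul_le_mul_left _ (by nlinarith)
    have e1 : M * (n * n) = M * n ^ 2 := by ring
    rw [e1]
    omega
  · intro T hT hans hr
    refine low d lam r n M hd h1 h2 le_rfl T hT e e.surjective (fun b hb => ?_) hr
    rw [hans b hb]
    constructor
    · rintro ⟨x, hx⟩
      refine ⟨fun p => x (c.symm p), fun i => ?_⟩
      refine (hx i).trans (le_of_eq ?_)
      show ∑ j, Mtx M n (e i) (c j) * x j = _
      rw [← Equiv.sum_comp c]
      simp
    · rintro ⟨y, hy⟩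
      refine ⟨fun j => y (c j), fun i => ?_⟩
      refine (hy i).trans (le_of_eq ?_)
      show _ = ∑ j, Mtx M n (e i) (c j) * y (c j)
      rw [← Equiv.sum_comp c]

end Pool.Agent.TH655.ML
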