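import Pool.Agent.H560R2.Mat6

/-!
# Monotone real algorithms with few comparisons
-/

set_option autoImplicit false

open Finset

namespace Pool.Agent.TH655.ML

/-- Real algorithms (computation trees). `answer a`: stop with the answer `a`. `op f x y t`: compute
`f u v`, where `u`, `v` are the values of the operands `x`, `y`, and continue with `t`.
`test x θ t t'`: if `θ ≤ u`, where `u` is the value of `x`, continue with `t`, otherwise with `t'`.
An operand is an entry of the input (`Sum.inl i`) or the number computed `k` operations before the
last one (`Sum.inr k`). -/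
inductive Tree (ι : Type) : Type
  | answer (a : Bool) : Tree ι
  | op (f : ℝ → ℝ → ℝ) (x y : ι ⊕ ℕ) (t : Tree ι) : Tree ι
  | test (x : ι ⊕ ℕ) (θ : ℝ) (t t' : Tree ι) : Tree ι

variable {ι : Type}

/-- all operations of the tree are monotone functions of two real numbers -/
def Tree.Mono : Tree ι → Prop
  | .answer _ => True
  | .op f _ _ t => (∀ u u' v v' : ℝ, u ≤ u' → v ≤ v' → f u v ≤ f u' v') ∧ t.Mono
  | .test _ _ t t' => t.Mono ∧ t'.Mono

/-- the memory after the number `v` has been computed -/
def push (v : ℝ) (m : ℕ → ℝ) : ℕ → ℝ
  | 0 => v
  | k + 1 => m k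

/-- the outcomes of the tests -/
noncomputable def path (b : ι → ℝ) : Tree ι → (ℕ → ℝ) → List Bool
  | .answer _, _ => []
  | .op f x y t, m => path b t (push (f (Sum.elim b m x) (Sum.elim b m y)) m)
  | .test x θ t t', m =>
    open Classical in
    if θ ≤ Sum.elim b m x then true :: path b t m else false :: path b t' m

/-- the answer -/
noncomputable def ans (b : ι → ℝ) : Tree ι → (ℕ → ℝ) → Bool
  | .answer a, _ => a
  | .op f x y t, m => ans b t (push (f (Sum.elim b m x) (Sum.elim b m y)) m)
  | .test x θ t t', m =>
    open Classical in
    if θ ≤ Sum.elim b m x then ans b t m else ans b t' m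

/-- the number of steps (operations and tests) -/
noncomputable def steps (b : ι → ℝ) : Tree ι → (ℕ → ℝ) → ℕ
  | .answer _, _ => 0
  | .op f x y t, m => steps b t (push (f (Sum.elim b m x) (Sum.elim b m y)) m) + 1
  | .test x θ t t', m =>
    open Classical in
    (if θ ≤ Sum.elim b m x then steps b t m else steps b t' m) + 1

theorem push_le {v v' : ℝ} {m m' : ℕ → ℝ} (hv : v ≤ v') (hm : m ≤ m') :
    push v m ≤ push v' m' := by
  intro k
  cases k with
  | zero => exact hv
  | succ k => exact hm k

theorem read_le {b b' : ι → ℝ} {m m' : ℕ → ℝ} (hb : b ≤ b') (hm : m ≤ m') (x : ι ⊕ ℕ) :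
    Sum.elim b m x ≤ Sum.elim b' m' x := by
  rcases x with i | k
  · exact hb i
  · exact hm k

/-- the answer is determined by the outcomes of the tests -/
theorem ans_eq {b b' : ι → ℝ} (t : Tree ι) : ∀ {m m' : ℕ → ℝ}, path b t m = path b' t m' →
    ans b t m = ans b' t m' := by
  induction t with
  | answer a => intro m m' _; rfl
  | op f x y t ih => intro m m' h; exact ih h
  | test x θ t t' ih ih' =>
    intro m m' h
    simp only [path, ans] at h ⊢
    split_ifs at h ⊢
    · exact ih (List.cons.inj h).2
    · exact absurd (List.cons.inj h).1 (by simp)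
    · exact absurd (List.cons.inj h).1 (by simp)
    · exact ih' (List.cons.inj h).2

/-- the rank of a list of outcomes -/
def rank : ℕ → List Bool → ℕ
  | 0, _ => 0
  | _, [] => 0
  | r + 1, a :: l => (if a = true then 2 ^ r else 0) + rank r l

theorem rank_lt (r : ℕ) : ∀ l : List Bool, rank r l < 2 ^ r := by
  induction r with
  | zero => intro l; simp [rank]
  | succ r ih =>
    intro l
    cases l with
    | nil => simp [rank]
    | cons a l =>
      simp only [rank]
      have := ih l
      rw [pow_succ]
      split_ifs <;> omega

/-- the rank increases with the input -/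
theorem rank_mono {b b' : ι → ℝ} (hb : b ≤ b') (t : Tree ι) (ht : t.Mono) : ∀ (r : ℕ)
    {m m' : ℕ → ℝ}, m ≤ m' → (path b t m).length ≤ r → (path b' t m').length ≤ r →
    path b t m = path b' t m' ∨ rank r (path b t m) < rank r (path b' t m') := by
  induction t with
  | answer a => intro r m m' _ _ _; exact Or.inl rfl
  | op f x y t ih =>
    intro r m m' hm h1 h2
    exact ih ht.2 r (push_le (ht.1 _ _ _ _ (read_le hb hm x) (read_le hb hm y)) hm) h1 h2
  | test x θ t t' ih ih' =>
    intro r m m' hm h1 h2
    have hx := read_le hb hm x
    simp only [path] at h1 h2 ⊢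
    split_ifs at h1 h2 ⊢ with c1 c2 c2
    · cases r with
      | zero => simp at h1
      | succ r =>
        rcases ih ht.1 r hm (by simpa using h1) (by simpa using h2) with h | h
        · exact Or.inl (by rw [h])
        · exact Or.inr (by simp only [rank]; omega)
    · exact absurd (c1.trans hx) c2
    · cases r with
      | zero => simp at h1
      | succ r =>
        right
        simp only [rank, if_true]
        have := rank_lt r (path b t' m)
        simp only [Bool.false_eq_true, if_false]
        omega
    · cases r with
      | zero => simp at h1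
      | succ r =>
        rcases ih' ht.2 r hm (by simpa using h1) (by simpa using h2) with h | h
        · exact Or.inl (by rw [h])
        · exact Or.inr (by simp only [rank]; omega)

open Pool.Agent.H560R2

/-- the programs along the path of the smallest input -/
theorem program {Z : Type} {B : Set (Z → ℝ)} (z : Z) (b : Z → ι → ℝ)
    (hB : ∀ i, (fun X => b X i) ∈ B) (hb : ∀ X, b z ≤ b X) (t : Tree ι) (ht : t.Mono) :
    ∀ (L : List (Z → ℝ)) (m : Z → ℕ → ℝ) (g : Z → ℝ), RProg B L →
      (∀ k, (fun X => m X k) ∈ B ∨ (fun X => m X k) ∈ L) → (∀ X, m z ≤ m X) → (g ∈ B ∨ g ∈ L) →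
      ∃ (L' : List (Z → ℝ)) (G : Z → ℝ), RProg B L' ∧ (G ∈ B ∨ G ∈ L') ∧
        L'.length ≤ L.length + steps (b z) t (m z) ∧
        ∀ X, 1 ≤ G X ↔ 1 ≤ g X ∨ path (b X) t (m X) ≠ path (b z) t (m z) := by
  induction t with
  | answer a =>
    intro L m g hL hm hmz hg
    exact ⟨L, g, hL, hg, by simp [steps], fun X => by simp [path]⟩
  | op f x y t ih =>
    intro L m g hL hm hmz hg
    have hread : ∀ x : ι ⊕ ℕ, (fun X => Sum.elim (b X) (m X) x) ∈ B ∨
        (fun X => Sum.elim (b X) (m X) x) ∈ L := by
      intro x
      rcases x with i | k
      · exact Or.inl (hB i)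
      · exact hm k
    set h : Z → ℝ := fun X => f (Sum.elim (b X) (m X) x) (Sum.elim (b X) (m X) y) with hh
    have hL1 : RProg B (h :: L) := by
      have := RProg.gate (B := B) 2 le_rfl (fun u : Fin 2 → ℝ => f (u 0) (u 1))
        (fun u v huv => ht.1 _ _ _ _ (huv 0) (huv 1))
        (fun j : Fin 2 => if j = 0 then (fun X => Sum.elim (b X) (m X) x)
          else (fun X => Sum.elim (b X) (m X) y)) hL (by
            intro j
            split_ifs
            · exact hread x
            · exact hread y)
      simpa using this
    obtain ⟨L', G, h1, h2, h3, h4⟩ := ih ht.2 (h :: L) (fun X => push (h X) (m X)) g hL1 (by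
        intro k
        cases k with
        | zero => exact Or.inr List.mem_cons_self
        | succ k => exact (hm k).imp id (fun h => List.mem_cons_of_mem _ h))
      (fun X => push_le (ht.1 _ _ _ _ (read_le (hb X) (hmz X) x) (read_le (hb X) (hmz X) y))
        (hmz X)) (hg.imp id (fun h => List.mem_cons_of_mem _ h))
    refine ⟨L', G, h1, h2, ?_, h4⟩
    rw [List.length_cons] at h3
    have h5 : L'.length ≤ L.length + 1 + steps (b z) t
      (push (f (Sum.elim (b z) (m z) x) (Sum.elim (b z) (m z) y)) (m z)) := h3
    simp only [steps]
    omega
  | test x θ t t' ih ih' =>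
    intro L m g hL hm hmz hg
    have hread : (fun X => Sum.elim (b X) (m X) x) ∈ B ∨
        (fun X => Sum.elim (b X) (m X) x) ∈ L := by
      rcases x with i | k
      · exact Or.inl (hB i)
      · exact hm k
    by_cases c : θ ≤ Sum.elim (b z) (m z) x
    · obtain ⟨L', G, h1, h2, h3, h4⟩ := ih ht.1 L m g hL hm hmz hg
      refine ⟨L', G, h1, h2, ?_, fun X => ?_⟩
      · simp only [steps, if_pos c]
        omega
      · rw [h4 X]
        have cX : θ ≤ Sum.elim (b X) (m X) x := c.trans (read_le (hb X) (hmz X) x)
        simp only [path, if_pos c, if_pos cX, ne_eq, List.cons.injEq, true_and]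
    · set g' : Z → ℝ := fun X => max (g X) (if θ ≤ Sum.elim (b X) (m X) x then 1 else 0) with hg'
      have hL1 : RProg B (g' :: L) := by
        have := RProg.gate (B := B) 2 le_rfl
          (fun u : Fin 2 → ℝ => max (u 0) (if θ ≤ u 1 then 1 else 0))
          (fun u v huv => by
            refine max_le_max (huv 0) ?_
            have := huv 1
            split_ifs with c1 c2
            · exact le_rfl
            · exact absurd (c1.trans this) c2
            · norm_num
            · exact le_rfl)
          (fun j : Fin 2 => if j = 0 then g
            else (fun X => Sum.elim (b X) (m X) x)) hL (by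
              intro j
              split_ifs
              · exact hg
              · exact hread)
        simpa using this
      obtain ⟨L', G, h1, h2, h3, h4⟩ := ih' ht.2 (g' :: L) m g' hL1
        (fun k => (hm k).imp id (fun h => List.mem_cons_of_mem _ h)) hmz
        (Or.inr List.mem_cons_self)
      refine ⟨L', G, h1, h2, ?_, fun X => ?_⟩
      · rw [List.length_cons] at h3
        simp only [steps, if_neg c]
        omega
      · rw [h4 X]
        simp only [path, if_neg c]
        by_cases cX : θ ≤ Sum.elim (b X) (m X) x
        · rw [if_pos cX]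
          have : (1 : ℝ) ≤ g' X := by
            simp only [hg', if_pos cX]
            exact le_max_right _ _
          simp [this]
        · rw [if_neg cX]
          have : (1 : ℝ) ≤ g' X ↔ 1 ≤ g X := by
            simp only [hg', if_neg cX, le_max_iff]
            constructor
            · rintro (h | h)
              · exact h
              · norm_num at h
            · exact Or.inl
          rw [this]
          simp

end Pool.Agent.TH655.ML
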